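import Pool.Agent.Helper79.PN.Lem

set_option autoImplicit false

/-!
Module EIG of the project PN (MP_7c9036_mp): `-3` is an eigenvalue of the graph Laplacian.
-/

open scoped Classical

namespace Pool.Agent.Helper2.PN

open Pool.Agent.Helper79.PN

theorem eig_zeta_norm (n : ℕ) : ‖zeta ^ n‖ = 1 := by
  rw [norm_pow]
  have : ‖zeta‖ = 1 := by
    unfold zeta
    rw [show (2 * Real.pi * Complex.I / 5 : ℂ) = ((2 * Real.pi / 5 : ℝ) : ℂ) * Complex.I by
      push_cast; ring]
    exact Complex.norm_exp_ofReal_mul_I _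
  rw [this, one_pow]

theorem eig_hh (θ : ℂ) (c : Lam) (j : ZMod 5) : |hh θ c j| ≤ ‖yy θ c‖ := by
  unfold hh
  refine (Complex.abs_re_le_norm _).trans ?_
  rw [norm_mul, RCLike.norm_conj, eig_zeta_norm, mul_one]

theorem eig_ex (θ : ℂ) (P : Pen) (hP : ∀ K, InV P K ↔ Acc θ K) (f : Lam → ℝ) (hf : Sup P f) :
    ex θ (fun v => f v.1) = f := by
  funext K
  unfold ex
  split_ifs with h
  · rfl
  · exact (hf K (fun h' => h ((hP K).1 h'))).symm

theorem eig_ind (p : Prop) (h : ind p ≠ 0) : p := by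
  by_contra hp
  exact h (ind_false hp)

theorem st_EIG (hPEN : ST_PEN) (hNBX : ST_NBX) (hEGA : ST_EGA) (hDEN : ST_DEN) : ST_EIG := by
  intro θ H hθ hH
  obtain ⟨c, hc2, hc⟩ := hDEN θ 0 2 (1 / 20) (by norm_num)
  rw [sub_zero] at hc
  obtain ⟨P, hn, hh', hV⟩ := hPEN θ hθ
  let f : Lam → ℝ := fun K => ∑ k : ZMod 5, (ind (K = c + e k - e (k + 1)) -
    ind (K = c + e k - e (k - 1)))
  obtain ⟨f1, f2, f3, f4⟩ := hEGA P c (by rw [hn, hc2]) (fun j => by
    rw [hh']
    have := eig_hh θ c j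
    linarith) f (fun K => rfl)
  have hfin : (Function.support f).Finite := by
    have hs : Function.support f ⊆ (((Finset.univ : Finset (ZMod 5)).image
        (fun k => c + e k - e (k + 1)) ∪ (Finset.univ : Finset (ZMod 5)).image
        (fun k => c + e k - e (k - 1)) : Finset Lam) : Set Lam) := by
      intro K hK
      by_contra hK'
      apply hK
      simp only [Finset.coe_union, Finset.coe_image, Finset.coe_univ, Set.image_univ,
        Set.mem_union, Set.mem_range, not_or, not_exists] at hK'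
      apply Finset.sum_eq_zero
      intro k _
      rw [ind_false (fun h => hK'.1 k h.symm), ind_false (fun h => hK'.2 k h.symm), sub_zero]
    exact (Finset.finite_toSet _).subset hs
  have hmem : Memℓp (fun v : Vert θ => ((f v.1 : ℝ) : ℂ)) 2 := by
    apply memℓp_gen
    apply summable_of_hasFiniteSupport
    refine (hfin.preimage (Subtype.val_injective.injOn)).subset ?_
    intro v hv
    simp only [Set.mem_preimage, Function.mem_support] at hv ⊢
    intro h0
    apply hv
    rw [h0]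
    simp
  let ψ : Hil θ := ⟨fun v : Vert θ => ((f v.1 : ℝ) : ℂ), hmem⟩
  have hψ : ∀ v : Vert θ, (ψ : Vert θ → ℂ) v = ((f v.1 : ℝ) : ℂ) := fun v => rfl
  refine ⟨ψ, ?_, ?_⟩
  · intro h0
    obtain ⟨K, hK⟩ := f4
    have hKV : InV P K := by
      by_contra h
      exact hK (f1 K h)
    have h1 := hψ ⟨K, (hV K).1 hKV⟩
    rw [h0] at h1
    simp only [lp.coeFn_zero, Pi.zero_apply] at h1
    exact hK (by exact_mod_cast h1.symm)
  · apply lp.ext
    funext v
    rw [hH ψ v]
    have hx := eig_ex θ P hV f f1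
    obtain ⟨n1, n2, -, -⟩ := hNBX θ v
    have h1 := n1 (fun w => f w.1)
    rw [hx, f3 v.1 ((hV v.1).2 v.2)] at h1
    have h2 : ((nbV θ v).card : ℝ) = dg P v.1 := by
      rw [n2]
      unfold dg
      congr 1
      funext K
      rw [show (InV P K) = Acc θ K from propext (hV K)]
    have h3 : ∑ w ∈ nbV θ v, ((ψ : Vert θ → ℂ) w - (ψ : Vert θ → ℂ) v) =
        ((∑ w ∈ nbV θ v, f w.1 - ((nbV θ v).card : ℝ) * f v.1 : ℝ) : ℂ) := by
      rw [Finset.sum_sub_distrib, Finset.sum_const, nsmul_eq_mul]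
      push_cast
      rfl
    rw [h3, h1, h2]
    simp only [lp.coeFn_smul, Pi.smul_apply, smul_eq_mul, hψ]
    rcases eq_or_ne (f v.1) 0 with h0 | h0
    · rw [h0]
      simp
    · rw [f2 v.1 h0]
      push_cast
      ring

end Pool.Agent.Helper2.PN
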